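import Pool.Agent.Run7.h821.FibE

/-!
# Abundance for the images of fibrations by curves

Let `V` be a variety of dimension `n + 1`, and let `V ⇢ V'` be a dominant rational map to a
projective variety of dimension `n`, given by functions `t 1, ..., t N` on `V`, with irreducible
generic fibre. So `V` is fibred by curves, of some genus `r`; the fibration is arbitrary otherwise, in
particular it may have maximal variation. Let `H` be the pullback of the hyperplane class of `V'`
(the hyperplane at infinity), and let `ω 1, ..., ω r` be sections of `K_V - M H` which are linearly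
independent over the function field of `V'`. In other words: `f_* ω_V ⊗ O(-M)` is generated by
global sections at the generic point, where `f` is the map `V ⇢ V'`.

Let `V ⇢ W` be a dominant rational map of finite degree. The map is arbitrary; it is not assumed to be
related to the fibration, and its ramification is arbitrary. Let `W'` be the image of `V` in
`W × V'`, let `m` be the degree of `W' → W`, at most the degree of `V ⇢ W`, and let `γ` be the genus
of the geometric generic fibre of `W' ⇢ V'`.

* If `m ≤ M + 1` then `γ = 0` if and only if `p_g(W) = 0`, if and only if `κ(W) = -∞`, if and only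
  if `K_W` is not pseudo-effective, if and only if `W` is uniruled.
* If `2 m ≤ M + 1` then all projective varieties `X` with canonical singularities which are
  birational to `W` satisfy `κ(X) = ν(X)`, and this number is `-∞` if `γ = 0`, `dim W - 1` if
  `γ = 1`, and `dim W` if `γ ≥ 2`. If `γ ≥ 1` then the image of the canonical map of `W` has the
  dimension `κ(W)`: no multiples of `K_W` are necessary.

A projective manifold `X` (or a minimal variety) with nef canonical divisor is not uniruled, and `K_X`
is semiample if `κ(X) = ν(X)` (Kawamata). So the abundance conjecture holds for all projective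
manifolds and minimal varieties `X` with nef canonical divisor which are birational to such an image
`W`, `2 m ≤ M + 1`. The degree of `W' → W` and not the one of `V ⇢ W` enters: for instance `V ⇢ W`
may be any composition of a map over `V'` of arbitrary degree and a map of degree at most
`(M + 1) / 2`.

The known results of this type (in the starting repository: `ProductsOfVarieties`, `CurveFibrations`
and others of this folder; in this run `TrichotomyTimesCurve` of helper72) are for products with a
curve, or for nondegenerate hypersurfaces in a torus with fibres in a trapezoid, for which the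
conclusion is `κ(W) ≥ dim W - 1`.

Proof. The restrictions of the `ω j` to the geometric generic fibre `C` of `V ⇢ V'` are independent
(the fibres are irreducible), so they generate the regular differentials of `C`. Let `C'` be the
geometric generic fibre of `W' ⇢ V'`, an image of `C`. The traces of the `ω j` on `C'` generate the
regular differentials of `C'`, since a regular differential of `C'` is the trace of a multiple of its
pullback. If `γ = 0` then `C'` is rational, and `W'` and `W` are uniruled. If `γ > 0` then the trace of
some `ω j` is not zero, and the traces on `W` of the forms `A(t) ω j`, where `A` is a polynomial of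
degree at most `M`, show that `p_g(W) > 0` and `κ(W) ≥ n`. If `γ ≥ 2` then the ratio of the traces
of some `ω i`, `ω j` on `W'` is not a function on `V'`, and the ratios of the traces on `W` of the
forms `A(t) ω j` generate a field over which the function field of `W` is algebraic, by a
Cayley-Bacharach argument: `κ(W) = n + 1`. If `γ = 1` then all regular differentials of `C'` are
proportional, so they have no zeros (by duality a zero would give a function with one simple pole),
`ν(C') = 0` and `ν(W) ≤ ν(W') ≤ n + ν(C')`.

The function-field language of the starting repository is used: `K` and `L` are the function fields of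
`V` and `W`; a variety `X` with the function field `L` is given by the homogeneous coordinates `y` of
its generic point (`Pool/Agent/Y172/Defs.lean`, `Canonical` in `Pool/Agent/Y191/CanA.lean`).
-/

set_option autoImplicit false
set_option linter.overlappingInstances false
set_option maxHeartbeats 4000000
set_option synthInstance.maxHeartbeats 400000

open FF Module Pool.Agent Pool.Agent.W602.GT Pool.Agent.R885 Pool.Agent.Y172 Pool.Agent.Y191
open Pool.Agent.W619.PQ (IsUniruled)

namespace Pool.Agent.Results.MP_97d78d_ag.ImagesOfCurveFibrations

/-- The geometric genus of the varieties of dimension `w` over `k` with the function field `K` is at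
most `g`: any `g + 1` canonical forms which are regular at all prime divisors are linearly
dependent over `k`. -/
def GenusLe (k K : Type) [Field k] [Field K] [Algebra k K] (w g : ℕ) : Prop :=
  ∀ ω : Fin (g + 1) → (Fin w → Derivation k K K) → K, (∀ j, IsPluri 1 (ω j)) →
    (∀ j (P : Place k K), Divisorial w P → RegAt P (ω j)) →
    ∃ c : Fin (g + 1) → k, c ≠ 0 ∧ ∀ D, ∑ j, algebraMap k K (c j) * ω j D = 0

section

variable {K : Type} [Field K] [Algebra ℂ K]

/-- Let `B ≤ E` be the function fields of `V'` and of a variety `X` which is fibred over `V'` by
curves. The genus of the geometric generic fibre of `X ⇢ V'` is at most `g`. The function field of the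
geometric generic fibre is the field generated by `E` over the algebraic closure of `B`. -/
def FibreGenusLe (B E : IntermediateField ℂ K) (g : ℕ) : Prop :=
  GenusLe (algebraicClosure B (AlgebraicClosure K))
    (IntermediateField.adjoin (algebraicClosure B (AlgebraicClosure K))
      (algebraMap K (AlgebraicClosure K) '' E)) 1 g

/-- `ω` is a section of `K_V - M H`, where `V` is the variety of dimension `n` with the function field
`K` and `H` is the pullback of the hyperplane class under the map given by `1, t_1, ..., t_N`: the
products of the canonical form `ω` with the monomials of degree at most `M` in the `t_j` are regular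
at all prime divisors. -/
def IsTwisted {N : ℕ} (n M : ℕ) (t : Fin N → K) (ω : (Fin n → Derivation ℂ K K) → K) : Prop :=
  IsPluri 1 ω ∧ ∀ a : Fin N → ℕ, ∑ j, a j ≤ M → ∀ P : Place ℂ K, Divisorial n P →
    RegAt P (fun D => (∏ j, t j ^ a j) * ω D)

end

section

variable (L : Type) [Field L] [Algebra ℂ L]

/-- `κ(X) = ν(X) = d` for all projective varieties `X` of dimension `n` with canonical singularities
and the function field `L` (with any effective integral divisor `A` in the definition of `ν`). -/
def Dimensions (n d : ℕ) : Prop :=
  ∀ (N : ℕ) (y : Fin (N + 1) → L), NormalModel y → Canonical y n →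
    kodairaDim y n 0 = (d : WithBot ℕ) ∧
      ∀ A, Effective y A → Integral y A → numericalDim y n 0 A = (d : EReal)

/-- `κ(X) = ν(X) = -∞` for all projective varieties `X` of dimension `n` with canonical singularities
and the function field `L`. -/
def DimensionsNegative (n : ℕ) : Prop :=
  ∀ (N : ℕ) (y : Fin (N + 1) → L), NormalModel y → Canonical y n →
    kodairaDim y n 0 = ⊥ ∧ ∀ A, Effective y A → Integral y A → numericalDim y n 0 A = ⊥

/-- The canonical map of the varieties of dimension `n` with the function field `L` has an image of
dimension at least `d`: there are `d + 1` canonical forms, regular at all prime divisors, with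
algebraically independent ratios. -/
def CanonicalImage (n d : ℕ) : Prop :=
  ∃ η : Fin (d + 1) → (Fin n → Derivation ℂ L L) → L,
    (∀ l, IsPluri 1 (η l) ∧ ∀ P : Place ℂ L, Divisorial n P → RegAt P (η l)) ∧
    ∃ D, (∀ l, η l D ≠ 0) ∧ AlgebraicIndependent ℂ (fun l : Fin d => η l.succ D / η 0 D)

end

/-- **Images of fibrations by curves.** Let `K` be the function field of a variety `V` of dimension
`n + 1`, and let the functions `t j` generate a field `B` of transcendence degree `n` which is
algebraically closed in `K`: they give a fibration `V ⇢ V'` by curves. Let the genus of the geometric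
generic fibre be at most `r`, and let `ω 1, ..., ω r` be sections of `K_V - M H` which are linearly
independent over `B`. Let `V ⇢ W` be a dominant rational map of finite degree, `L` the function field
of `W`, `W'` the image of `V` in `W × V'`, with the function field `L(t)`, and `m = [L(t) : L]` the
degree of `W' → W`.
(1) If `m ≤ M + 1` then the geometric generic fibre of `W' ⇢ V'` is rational if and only if
`p_g(W) = 0`, if and only if `κ(W) = -∞`, if and only if `K_W` is not pseudo-effective, if and only if
`W` is uniruled.
(2) If `2 m ≤ M + 1` then `κ(X) = ν(X)` for all projective varieties `X` with canonical singularities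
birational to `W`: both are `-∞`, and `W` is uniruled, if the geometric generic fibre of `W' ⇢ V'` has
genus `0`; both are `n = dim W - 1` if it has genus `1`; both are `n + 1 = dim W` if it has genus at
least `2`. In the last two cases the image of the canonical map of `W` has this dimension. -/
theorem result {n N M r : ℕ} {K : Type} [Field K] [Algebra ℂ K] [Algebra.EssFiniteType ℂ K]
    (hK : Algebra.trdeg ℂ K = (n + 1 : ℕ)) {t : Fin N → K}
    (hd : Algebra.trdeg ℂ (IntermediateField.adjoin ℂ (Set.range t)) = (n : ℕ))
    (hcl : ∀ g : K, IsAlgebraic (IntermediateField.adjoin ℂ (Set.range t)) g →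
      g ∈ IntermediateField.adjoin ℂ (Set.range t))
    (hr : FibreGenusLe (IntermediateField.adjoin ℂ (Set.range t)) ⊤ r)
    {ω : Fin r → (Fin (n + 1) → Derivation ℂ K K) → K} (hω : ∀ j, IsTwisted (n + 1) M t (ω j))
    (hind : ∀ b : Fin r → IntermediateField.adjoin ℂ (Set.range t),
      (∀ D, ∑ j, (b j : K) * ω j D = 0) → b = 0)
    (L : Type) [Field L] [Algebra ℂ L] [Algebra L K] [IsScalarTower ℂ L K]
    [FiniteDimensional L K] :
    (Module.finrank L (IntermediateField.adjoin L (Set.range t)) ≤ M + 1 →
      [FibreGenusLe (IntermediateField.adjoin ℂ (Set.range t))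
          ((IntermediateField.adjoin L (Set.range t)).restrictScalars ℂ) 0,
        GenusLe ℂ L (n + 1) 0, ¬ KodGe ℂ L (n + 1) (fun _ => False) 0,
        ¬ Psef ℂ L (n + 1) (fun _ => False), IsUniruled ℂ L (n + 1)].TFAE) ∧
    (2 * Module.finrank L (IntermediateField.adjoin L (Set.range t)) ≤ M + 1 →
      (FibreGenusLe (IntermediateField.adjoin ℂ (Set.range t))
          ((IntermediateField.adjoin L (Set.range t)).restrictScalars ℂ) 0 →
        IsUniruled ℂ L (n + 1) ∧ DimensionsNegative L (n + 1)) ∧
      (¬ FibreGenusLe (IntermediateField.adjoin ℂ (Set.range t))
          ((IntermediateField.adjoin L (Set.range t)).restrictScalars ℂ) 0 →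
        FibreGenusLe (IntermediateField.adjoin ℂ (Set.range t))
          ((IntermediateField.adjoin L (Set.range t)).restrictScalars ℂ) 1 →
        Dimensions L (n + 1) n ∧ CanonicalImage L (n + 1) n) ∧
      (¬ FibreGenusLe (IntermediateField.adjoin ℂ (Set.range t))
          ((IntermediateField.adjoin L (Set.range t)).restrictScalars ℂ) 1 →
        Dimensions L (n + 1) (n + 1) ∧ CanonicalImage L (n + 1) (n + 1))) := by
  classical
  have hess : Algebra.EssFiniteType ℂ K := inferInstance
  have hL : Algebra.trdeg ℂ L = (n + 1 : ℕ) := Pool.Agent.Y184.NT.trdeg_below (K := K) hK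
  have hessL : Algebra.EssFiniteType ℂ L := Pool.Agent.TH466.QG.ess_below (K := K)
  have hessB : Algebra.EssFiniteType ℂ (IntermediateField.adjoin ℂ (Set.range t)) :=
    IntermediateField.essFiniteType_iff.2
      (IntermediateField.fg_adjoin_of_finite (Set.finite_range t))
  have hregω : ∀ j, ∀ P : Place ℂ K, Divisorial (n + 1) P → RegAt P (ω j) := by
    intro j P hP D hD
    have h1 := (hω j).2 0 (by simp) P hP D hD
    simpa using h1
  -- the image in `W × V'`
  have hle : IntermediateField.adjoin ℂ (Set.range t) ≤
      (IntermediateField.adjoin L (Set.range t)).restrictScalars ℂ := by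
    rw [IntermediateField.adjoin_le_iff]
    exact IntermediateField.subset_adjoin L _
  obtain ⟨E', hE'⟩ : ∃ E' : IntermediateField (IntermediateField.adjoin ℂ (Set.range t)) K,
      E' = IntermediateField.extendScalars hle := ⟨_, rfl⟩
  have hE'r : E'.restrictScalars ℂ =
      (IntermediateField.adjoin L (Set.range t)).restrictScalars ℂ := by
    rw [hE']
    exact IntermediateField.extendScalars_restrictScalars hle
  have hfinE : FiniteDimensional E' K := by
    have h1 : FiniteDimensional (IntermediateField.adjoin L (Set.range t)) K := inferInstance
    rw [hE']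
    exact h1
  obtain ⟨h1, h2, h3, h4⟩ := Run7.h821.fib_geo hK _ hessB hd hcl E' hr ω (fun j => (hω j).1)
    hregω hind
  rw [hE'r] at h1 h2 h3 h4
  let φ : L →ₐ[ℂ] ((IntermediateField.adjoin L (Set.range t)).restrictScalars ℂ :
      IntermediateField ℂ K) :=
    { toFun := fun g => ⟨algebraMap L K g,
        (IntermediateField.adjoin L (Set.range t)).algebraMap_mem g⟩
      map_one' := Subtype.ext (map_one _)
      map_mul' := fun a b => Subtype.ext (map_mul _ _ _)
      map_zero' := Subtype.ext (map_zero _)
      map_add' := fun a b => Subtype.ext (map_add _ _ _)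
      commutes' := fun c => Subtype.ext (IsScalarTower.algebraMap_apply ℂ L K c).symm }
  have huni : FibreGenusLe (IntermediateField.adjoin ℂ (Set.range t))
      ((IntermediateField.adjoin L (Set.range t)).restrictScalars ℂ) 0 →
      IsUniruled ℂ L (n + 1) := by
    intro h
    obtain ⟨C, i1, i2, hC, htr, ⟨ψ⟩⟩ := h1 h
    exact ⟨C, i1, i2, hC, htr, ⟨ψ.comp φ⟩⟩
  refine ⟨fun hs => ?_, fun hs => ⟨fun hg => ?_, fun hg0 hg1 => ?_, fun hg1 => ?_⟩⟩
  · tfae_have 1 → 5 := huni
    tfae_have 5 → 4 := fun h h' =>
      (Pool.Agent.W619.Y.uniruled_neg (n + 1) hL h).1
        ((Pool.Agent.TH466.QG.psef_iff (n + 1)).1 h')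
    tfae_have 4 → 3 := fun h h' => h (psef_of_kodGe h')
    tfae_have 3 → 2 := by
      intro h ω hω hreg
      refine ⟨fun _ => 1, fun h0 => one_ne_zero (congrFun h0 0), fun D => ?_⟩
      rw [Fin.sum_univ_one, map_one, one_mul]
      by_contra hne
      refine h ⟨1, one_pos, fun _ => ω 0, fun _ => ⟨hω 0, fun P hP D' hD' => ?_,
        fun P hP _ => hreg 0 P hP⟩, D, hne, ?_⟩
      · exact hreg 0 P hP D' fun i => Pool.Agent.TH466.QG.derReg_of_log (hD' i)
      · exact algebraicIndependent_empty_type
    tfae_have 2 → 1 := by
      intro hg
      refine h2 fun j htr => ?_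
      obtain ⟨η, hη, hηr, D, hD⟩ :=
        (Pool.Agent.R882.LT.core_img (L := L) hK hd rfl (hω j) htr).1 hs
      obtain ⟨c, hc0, hc⟩ := hg (fun _ => η) (fun _ => hη) fun _ => hηr
      have h5 := hc D
      rw [Fin.sum_univ_one] at h5
      rcases mul_eq_zero.1 h5 with h6 | h6
      · apply hc0
        funext j
        have hj : j = (0 : Fin 1) := Subsingleton.elim (α := Fin 1) j 0
        rw [hj]
        exact (map_eq_zero _).1 h6
      · exact hD h6
    tfae_finish
  · have h5 := huni hg
    exact ⟨h5, Run7.h821.dims_neg hL (Pool.Agent.W619.Y.uniruled_neg (n + 1) hL h5).2⟩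
  · -- genus one
    have hnumE := h3 hg1 hg0
    have hnumL : Pool.Agent.W619.TW.NumLe ℂ L (n + 1) (fun _ => False) n :=
      Run7.h821.numLe_down_mid hK _ hnumE
    obtain ⟨j, hj⟩ : ∃ j, Pool.Agent.R882.LT.TraceNe (ω j)
        ((IntermediateField.adjoin L (Set.range t)).restrictScalars ℂ) := by
      by_contra hcon
      push Not at hcon
      exact hg0 (h2 hcon)
    have hcan1 := (Run7.h821.canon_fib (L := L) hK hd hcl hω hs).1 ⟨j, hj⟩
    exact ⟨fun _ y hy hcan => R885.dims_of hL hy hcan hcan1.kod hnumL, hcan1⟩
  · -- genus at least two
    have hcan1 := (Run7.h821.canon_fib (L := L) hK hd hcl hω hs).2 (h4 hg1)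
    obtain ⟨z, hz⟩ := Pool.Agent.W636.PG.exists_basis ℂ L (n + 1) hL
    have hnum := R885.num_top hz (Pool.Agent.W824.PG.fin_adj hessL z hz)
    exact ⟨fun _ y hy hcan => R885.dims_of hL hy hcan hcan1.kod hnum, hcan1⟩

end Pool.Agent.Results.MP_97d78d_ag.ImagesOfCurveFibrations
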