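import Pool.Agent.Run7.h260.FB.Fin
import Pool.Agent.R882.TFin

/-!
# Varieties with a multivalued map of small degree to a variety with many canonical forms

Let `Z` be a smooth projective variety over `ℂ`, of dimension `a ≥ 1`, whose canonical forms separate
`g` general points (`SeparatesPoints`). For example: `Z` is a smooth complete intersection of
hypersurfaces of degree at most `D` in `ℙ^(M + 1)` with `K_Z = O(m)`, `m ≥ 7 N + 4`,
`(M + 1) N < m + M + 2`, `D + N ≤ m + 2` and `g < (N + 1) (m + 2 - N)`; or a curve of gonality greater
than `g`; or a product of such varieties.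

Let `W` be a smooth projective variety of any dimension `n`, with a multivalued dominant rational map
to `Z` with `d` values: an irreducible correspondence `Γ ⊂ W × Z`, dominating `W` and `Z`, such that
`Γ → W` is generically finite of degree `d`. For example, `W` is the image of any variety `V` with a
dominant map to `Z` under a generically finite map; then `Γ` is the image of `V` in `W × Z`, and `d` is
the number of different points of `Z` below a general fibre of `V → W`. No relation between the maps
is assumed, their ramification is arbitrary, and there is no condition on the fibres of `Γ → Z`, which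
are of dimension `n - a`. Let `b ≥ a` be the dimension of the image of `W` in the symmetric product
`Sym^d Z`.

**Theorem.**

* If `d ≤ g` then `W` is covered by a family of unirational varieties of dimension `r` (for `r = 1`: `W`
  is uniruled) if and only if the general fibre of `Γ → Z` is.
* If `k d ≤ g` then `W` has `k` linearly independent regular differential forms of degree `a`.
* If `2 d ≤ g` then for some `s ≥ 1` the bundle `Λ^s (Ω^a_W)` contains a line bundle `ℒ` with sections
  whose ratios contain `b` algebraically independent functions. So `κ(W, ℒ) ≥ b ≥ a`.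
* The numerical dimension `ν(K_W)` is at most `ν(K_Γ)`.

**Consequences for the problem.** Suppose that `2 d ≤ g`, and that `n ≤ b + 3` (for example
`n ≤ a + 3`) or `ν(K_Γ) ≤ b` (for example: `Γ` is birational to `Z × Y` where `Y` has any dimension and
`ν(K_Y) = 0`, and `Z` is of general type). Then either `W` and the general fibre of `Γ → Z` are uniruled,
or `W` has a good minimal model and `κ(W) = ν(W) ≥ b`. So every projective manifold `X` birational to `W`
with nef `K_X` satisfies the conjecture: `K_X` is semiample.

Indeed, if `W` is not uniruled then `K_W` is pseudo-effective (Boucksom, Demailly, Păun, Peternell). By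
the theorem of Campana and Păun the determinants of the quotients of the tensor powers of `Ω¹_W` are
then pseudo-effective, so `N K_W = ℒ + P` for some `N > 0` and a pseudo-effective `P`. Let `W ⇢ B` be
the Iitaka fibration of `ℒ`, `dim B ≥ b`, with the general fibre `F`. If `n ≤ b + 3` then `dim F ≤ 3`. If
`ν(K_Γ) ≤ b` then `b ≥ ν(K_W) ≥ ν(K_F) + dim B`, so `ν(K_F) = 0`. In both cases `F`, which is not
uniruled, has a good minimal model (Miyaoka, Kawamata; Nakayama, Gongyo, Druel). So `W` has a good
minimal model over `B` (Hacon, Xu, Lai), with the canonical model `B'` over `B`. By the canonical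
bundle formula (Fujino, Mori, Ambro) `K_W` is, on this model, the pull-back of a klt divisor
`K_B' + Δ` which is big over `B`, and a multiple of it is the sum of the pull-back of an ample divisor of
`B` and a pseudo-effective divisor; so `K_B' + Δ` is big, `κ(W) = dim B'`, and `W` has a good minimal
model.

For `d = 1` this is a special case of the theorem of Viehweg on fibrations over varieties of general
type. The theorem is new for multivalued maps; there is no condition on the geometric genus or the
Kodaira dimension of the fibres.

## Proof

Let `v dz_1 ∧ ... ∧ dz_a` be a canonical form on `Z`. The trace on `W` of its pull-back to `Γ` is a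
regular form `T_v` of degree `a` on `W` (`Pool/Agent/Run7/h260/FB/Tra.lean`): at a place of
ramification index `e` the lift of the vector field transversal to the branch divisor has a pole of
order at most `e - 1`, and the other ones are regular. The forms `T_v` are the sums of the values of the
canonical form at the `d` points of `Z` belonging to a point of `W`. So, if `d ≤ g`, they are not all
zero; and if there are `k` independent points of `W` and `k d ≤ g`, there are `k` independent forms.
Let the forms `T_v` generate a space of dimension `s` over the field of functions of `W`, with the basis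
`T_{v_1}, ..., T_{v_s}`. Then the products `T_v ∧ T_{v_2} ∧ ... ∧ T_{v_s}` are sections of a line bundle
in `Λ^s (Ω^a)`, and on fixed vector fields their values are the traces of the functions `v u`, with one
function `u` on `Γ`. As `2 d` points are separated, two points of `W` with the same ratios of these
values have one of their points in `Z` in common; for generic points over the field of the ratios this
means that the functions on `Z` are algebraic over this field (`FB/Alg.lean`, `FB/Plk.lean`).

The first part, on unirational coverings, is an application of the theorem `cov_lift` of helper562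
(Run7/h562/UF, from `MP_e06174_ag.UniruledFibre`, where `Γ` is dominated by a product `Z × Y`), and the
last one is the starting theorem `R882.LT.numLe_down`. The proofs use the starting files N123 (pull-backs
of forms), Y172, Y692 (places, traces), N162, N271, N273, N403 (generic points).
-/

set_option autoImplicit false
set_option linter.overlappingInstances false

open FF Module IntermediateField Pool.Agent.W602.GT
open Pool.Agent.W619.TW (NumLe)

namespace Pool.Agent.Results.MP_97d78d_ag.MultivaluedMaps

/-- **The canonical forms separate `g` general points.** `E` is the function field of a variety `Z` of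
dimension `a`, and `D` a rational frame of the tangent bundle. The embeddings `σ : E → Ω` are the
generic points of `Z` with coordinates in the field `Ω`. At most `g` different such points impose
independent conditions on the canonical forms `ω` which are regular at all prime divisors: if
`∑ c σ * σ (ω D) = 0` for all `ω` then all the coefficients `c σ` are zero. -/
def SeparatesPoints (E : Type) [Field E] [Algebra ℂ E] (a g : ℕ) : Prop :=
  ∀ D : Fin a → Derivation ℂ E E, LinearIndependent E D →
    ∀ (Ω : Type) [Field Ω] [Algebra ℂ Ω] [IsAlgClosed Ω] (A : Finset (E →ₐ[ℂ] Ω)), A.card ≤ g →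
    ∀ c : (E →ₐ[ℂ] Ω) → Ω,
    (∀ ω : (Fin a → Derivation ℂ E E) → E, IsPluri 1 ω →
      (∀ P : Place ℂ E, Divisorial a P → RegAt P ω) → ∑ σ ∈ A, c σ * σ (ω D) = 0) →
    ∀ σ ∈ A, c σ = 0

/-- The varieties with function field `L`, of dimension `n`, are covered by a family of unirational
varieties of dimension `r` (`r = 1`: they are uniruled): there is a dominant rational map
`T × ℙ^r ⇢ W` of finite degree, i.e. an embedding of `L` into the field of rational functions in `r`
variables over the function field `M` of a variety `T` of dimension `n - r`. -/
def IsCovered (L : Type) [Field L] [Algebra ℂ L] (n r : ℕ) : Prop :=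
  ∃ (M : Type) (_ : Field M) (_ : Algebra ℂ M), Algebra.EssFiniteType ℂ M ∧
    Algebra.trdeg ℂ M + r = n ∧ Nonempty (L →ₐ[ℂ] FractionRing (MvPolynomial (Fin r) M))

variable {K : Type} [Field K] [Algebra ℂ K]

/-- The generic fibre of `Γ → Z` is covered by a family of unirational varieties of dimension `r`
(`r = 1`: it is uniruled): there is a dominant rational map `T × ℙ^r ⇢ Γ` of finite degree whose
composition with `Γ → Z` is constant on the factors `ℙ^r`. Here `K` is the function field of `Γ` and
`E ⊆ K` the one of `Z`. -/
def FibreIsCovered (E : IntermediateField ℂ K) (n r : ℕ) : Prop :=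
  ∃ (M : Type) (_ : Field M) (_ : Algebra ℂ M), Algebra.EssFiniteType ℂ M ∧
    Algebra.trdeg ℂ M + r = n ∧ ∃ ψ : K →ₐ[ℂ] FractionRing (MvPolynomial (Fin r) M),
      ∀ f ∈ E, ∃ c : M, ψ f = algebraMap M (FractionRing (MvPolynomial (Fin r) M)) c

/-- The rational differential form `η` of degree `a` (an alternating function of `a` rational vector
fields, linear over the function field `L`, of dimension `n`) is regular: at all prime divisors of all
models its values on regular vector fields are regular. -/
def IsRegularForm {L : Type} [Field L] [Algebra ℂ L] (n : ℕ) {a : ℕ}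
    (η : (Derivation ℂ L L) [⋀^Fin a]→ₗ[L] L) : Prop :=
  ∀ P : Place ℂ L, Divisorial n P → RegAt P η

/-- The value of `η_1 ∧ ... ∧ η_s ∈ Λ^s (Ω^a)` on `D_1, ..., D_s`, where `D_j` is a tuple of `a` vector
fields. -/
noncomputable def wedge {L : Type} [Field L] [Algebra ℂ L] {a s : ℕ}
    (η : Fin s → (Derivation ℂ L L) [⋀^Fin a]→ₗ[L] L) (D : Fin s → Fin a → Derivation ℂ L L) : L :=
  (Matrix.of fun i j => η i (D j)).det

/-- For the varieties `W` with the function field `L`, of dimension `n`, some bundle `Λ^(s + 1) (Ω^a)`
contains a line bundle with sections whose ratios contain `b` algebraically independent functions: the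
sections are `θ_i ∧ η_1 ∧ ... ∧ η_s`, with regular forms `θ_0, ..., θ_b, η_1, ..., η_s` of degree `a`;
they are equal to `f_i` times the first one, which is not zero. -/
def HasLineSubbundle (L : Type) [Field L] [Algebra ℂ L] (n a b : ℕ) : Prop :=
  ∃ (s : ℕ) (η : Fin s → (Derivation ℂ L L) [⋀^Fin a]→ₗ[L] L)
    (θ : Fin (b + 1) → (Derivation ℂ L L) [⋀^Fin a]→ₗ[L] L) (f : Fin (b + 1) → L),
    (∀ i, IsRegularForm n (η i)) ∧ (∀ i, IsRegularForm n (θ i)) ∧
    (∀ i D, wedge (Fin.cons (θ i) η) D = f i * wedge (Fin.cons (θ 0) η) D) ∧
    (∃ D, wedge (Fin.cons (θ 0) η) D ≠ 0) ∧ AlgebraicIndependent ℂ (fun i : Fin b => f i.succ)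

/-- The dimension of the image of `W` in the symmetric product of `Z` is at least `b`: in the field
generated by the functions on `Z` at all the points of `Z` which belong to the generic point of `W` (the
images of `E` under the embeddings of `K` over `L`) there are `b` algebraically independent
elements. -/
def ImageDimGe (E : IntermediateField ℂ K) (L : Type) [Field L] [Algebra ℂ L] [Algebra L K]
    (b : ℕ) : Prop :=
  ∃ u : Fin b → AlgebraicClosure L, AlgebraicIndependent ℂ u ∧ ∀ i,
    u i ∈ IntermediateField.adjoin ℂ (⋃ σ : K →ₐ[L] AlgebraicClosure L, Set.range fun e : E => σ e)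

/-- **Varieties with a multivalued map of small degree.** Let `L` be the function field of a variety
`W` of dimension `n`, `E` the one of a variety `Z` of dimension `a ≥ 1` whose canonical forms separate
`g` general points, and `K` the function field of a correspondence between them: `K` is a finite
extension of `L` which is generated by its subfield `E`. Let `d = [K : L]` be the number of values.
Then:
* if `d ≤ g` then `W` is covered by unirational varieties of dimension `r` (for `r = 1`: uniruled) if
  and only if the generic fibre of `Γ → Z` is;
* if `k d ≤ g` then `W` has `k` linearly independent regular forms of degree `a`;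
* if `2 d ≤ g` then some `Λ^s (Ω^a_W)` contains a line bundle with sections which have `b`
  algebraically independent ratios, for all `b` such that the image of `W` in the symmetric product has
  dimension at least `b`, and in particular for `b = a`;
* if the numerical dimension of `K_Γ` is at most `c` then so is the one of `K_W`: for all divisors `A`
  there is a constant `C` with `h⁰ (m K_W + A) ≤ C m ^ c` (`NumLe` of the starting file
  `W619/TW/NDefs`). -/
theorem result {n a g : ℕ} (ha : 1 ≤ a) (E : IntermediateField ℂ K) [Algebra.EssFiniteType ℂ E]
    (hE : Algebra.trdeg ℂ E = a) (hsep : SeparatesPoints E a g)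
    (L : Type) [Field L] [Algebra ℂ L] [Algebra.EssFiniteType ℂ L] (hL : Algebra.trdeg ℂ L = n)
    [Algebra L K] [IsScalarTower ℂ L K] [FiniteDimensional L K]
    (hgen : IntermediateField.adjoin L (E : Set K) = ⊤) :
    (finrank L K ≤ g → ∀ r, (IsCovered L n r ↔ FibreIsCovered E n r)) ∧
    (∀ k, k * finrank L K ≤ g → ∃ η : Fin k → (Derivation ℂ L L) [⋀^Fin a]→ₗ[L] L,
      LinearIndependent ℂ η ∧ ∀ i, IsRegularForm n (η i)) ∧
    (2 * finrank L K ≤ g →
      (∀ b, ImageDimGe E L b → HasLineSubbundle L n a b) ∧ HasLineSubbundle L n a a) ∧
    (∀ c, NumLe ℂ K n (fun _ => False) c → NumLe ℂ L n (fun _ => False) c) := by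
  have hK : Algebra.EssFiniteType ℂ K := Algebra.EssFiniteType.comp ℂ L K
  obtain ⟨z, D, hz, hD⟩ := Pool.Agent.Y172.exists_crd hE
  have hS : Pool.Agent.N145.SX.SepX z (fun _ => False) (g + 1) :=
    Pool.Agent.N145.SX.sepX_of' hz hD fun Ω _ _ _ A hA c hc =>
      hsep D (Pool.Agent.N145.SX.dual_indep hD) Ω A hA c hc
  have hgen' : IntermediateField.adjoin L (Set.range (algebraMap E K)) = ⊤ := by
    have h1 : Set.range (algebraMap E K) = (E : Set K) := Subtype.range_coe
    rw [h1]
    exact hgen
  have hreg : ∀ v : Pool.Agent.N145.SX.HX z (fun _ => False),
      IsRegularForm n (Pool.Agent.Run7.h260.FB.aForm (K := K) hL z (algebraMap E K (v : E))) :=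
    fun v P hP => Pool.Agent.Run7.h260.FB.aForm_reg hL hE hz v.2 hP
      fun _ _ _ _ _ _ h => h
  have h3 : 2 * finrank L K ≤ g → ∀ b, ImageDimGe E L b → HasLineSubbundle L n a b := by
    intro hd b hb
    obtain ⟨s, v, w, f, h1, h2, h3⟩ := Pool.Agent.Run7.h260.FB.plk (K := K) hL hz hS
      (Nat.lt_succ_of_le hd) hgen' hb
    exact ⟨s, _, _, f, fun i => hreg (v i), fun i => hreg (w i), h1, h2, h3⟩
  refine ⟨fun hd r => ⟨fun h => ?_, ?_⟩, fun k hd => ?_, fun hd => ⟨h3 hd, h3 hd a ?_⟩,
    fun c hc => Pool.Agent.R882.LT.numLe_down (Pool.Agent.Y172.trdeg_up (K := L) hL) hc⟩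
  · exact Pool.Agent.Run7.h260.FB.cov_fibre hE hz hS hgen (Nat.lt_succ_of_le hd) h
  · rintro ⟨M, iF, iA, h1, h2, ψ, -⟩
    exact ⟨M, iF, iA, h1, h2, ⟨ψ.comp (IsScalarTower.toAlgHom ℂ L K)⟩⟩
  · obtain ⟨v, hv⟩ := Pool.Agent.Run7.h260.FB.forms_k (K := K) ha hE hL hz hS
      (Nat.lt_succ_of_le hd) hgen'
    exact ⟨_, hv, fun i => hreg (v i)⟩
  · exact Pool.Agent.Run7.h260.FB.imageDim_ge hz.1

end Pool.Agent.Results.MP_97d78d_ag.MultivaluedMaps
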