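import Pool.Agent.Run7.h323.TQ.Eff

/-!
# Effective abundance over toric bundles over quotients of complex tori

Let `X = V / Γ` be the quotient of a complex torus of dimension at most `g`, algebraic or not, by any
finite group, which may contain reflections. Let `Y → X` be a toric bundle: its fibres are the smooth
complete toric variety `F` given by the fan `u`, `S`, of any dimension `n`, its structure group is the
torus, and it is twisted by arbitrary line bundles `c_i` on `X`. Let `Δ` be an effective divisor with
rational coefficients on `Y`, `m (K_Y + Δ)` integral and Cartier, such that the restriction of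
`(Y, Δ)` to some fibre is log canonical; so `(Y, Δ)` may be any log canonical pair.

(1) `K_Y + Δ` is nef if and only if it is semiample.

(2) If `V → X` is unramified in codimension one then `K_Y + Δ` is nef if and only if it is nef on the
fibres of `Y → X`.

(3) The effective form: if `K_Y + Δ` is nef then `N m (K_Y + Δ)` is generated by its global sections,
where `N` depends only on `g`, `m`, the fan and the class of `m Δ` on the fibres. It does not depend on
the torus, the group, the line bundles `c_i` and the divisor `Δ`.

(4) Manifolds. Let `M` be a complex manifold with a holomorphic map `f : M → Y` which lifts locally to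
the covering `V × (ℂ^ι minus a closed set)` (all maps do, if `Γ` acts freely on `V`) and such that
`a K_M` is linearly equivalent to `f^* (b m (K_Y + Δ))`. If `K_Y + Δ` is nef then `a N K_M` is
generated by its global sections, with the number `N` of (3).

For compact `M` and surjective `f` the canonical bundle `K_M` is nef if and only if `K_Y + Δ` is nef. So
the question of the problem has the answer yes for all these `M`: if `K_M` is nef, then it is
semiample, in the unramified case even if it is only nef on the fibres of `M → X`. Examples are the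
compact Kähler manifolds `M` which are finite covers of `Y` ramified uniformly along divisors
`D_j` with normal crossings, `Δ = ∑ (1 - 1 / m_j) D_j` (such `M` are not projective if the torus is not
algebraic), and, for maps which need not be surjective, the smooth complete intersections `M` of
divisors `D_j` in `Y`, `Δ = ∑ D_j`.

The proof. By the log canonicity of a fibre the monomials of the equation of `m Δ` satisfy the
inequalities of all weights (small polydiscs with weights, `Run7/h323/TQ/Wt.lean`), so that for each
section `x^β` of a multiple of `m (K_F + Δ|_F)` a multiple of `β + m` is a combination of these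
exponents. The product of powers of the coefficients shows that the line bundle of the coefficients of
`x^β` on `X` is a multiple of `K_X + B` for an effective `B`. For the maximal cones it is nef, and
effective abundance on torus quotients applies. The number of the possible sets of exponents is
finite.

`latt`, `IsTorusQuotient` and `LineBundle` are defined in `Pool.Agent.W594.SYZ.Defs2`; `IsHermitian`,
`IsChernForm` and `IsNefForm` in `Pool.Agent.W594.SYZ.TQDefs`; `OnMirror`, `ramIndex` and
`IsRamification` in `Pool.Agent.TH735.AQ.MirDefs`; `IsSmoothFan`, `LinEquiv`, `IsSection`,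
`IsLogPluricanonical` and `IsLogCanonical` in `Pool.Agent.Q47.TB.Defs`; `Atlas`, `LB`, `ev`, `GG` in
`Pool.Agent.Q47.FJ.Defs`, `IsCanonical` in `Pool.Agent.Q47.FJ.DefsT`; `IsMax`, `IsNef`, `IsFibreNef`,
`IsGG`, `IsSemiample`, `LiftedMap`, `IsPullback` in `Pool.Agent.Run7.h323.TQ.Defs`.
-/

set_option autoImplicit false

namespace Pool.Agent.Results.MP_97d78d_ag.ToricBundlesTorusQuotients

open Pool.Agent.W594.SYZ2 MvPolynomial Q47.FJ Run7.h323.TQ
open Pool.Agent.TH735.AQ (OnMirror IsRamification)
open Q47.TB (IsSmoothFan IsLogPluricanonical IsLogCanonical)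

/-- `X = V / Γ` is the quotient of a complex torus of dimension at most `g` by a finite group, `ρ`
defines the ramification divisor of `V → X`, `Hc i` and `H` are the Chern forms of the line bundles
`c i` and `L`, `F` defines the effective divisor `m Δ` on the toric bundle `Y → X` of the `c i`,
`O_Y(m (K_Y + Δ)) = O_Y(d - m (1, ..., 1); L)`, and the restriction of `(Y, Δ)` to some fibre is log
canonical. -/
structure IsPair {V : Type} [NormedAddCommGroup V] [NormedSpace ℂ V] {ι : Type} [Fintype ι] {n : ℕ}
    (u : ι → Fin n → ℤ) (S : Set (Set ι)) (g : ℕ) (Γ : Subgroup (V ≃ᵃ[ℂ] V)) (ρ : V → ℂ)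
    (c : ι → LineBundle Γ) (Hc : ι → V → V → ℂ) (m : ℕ) (d : ι → ℤ) (F : V → MvPolynomial ι ℂ)
    (L : LineBundle Γ) (H : V → V → ℂ) : Prop where
  dim : Module.finrank ℂ V ≤ g
  torus : IsTorusQuotient Γ
  ram : IsRamification Γ ρ
  chern : ∀ i, IsChernForm (c i) (Hc i)
  log : IsLogPluricanonical u c m ρ d F L
  lc : ∃ v, IsLogCanonical S m (F v)
  chernL : IsChernForm L H

/-- For every pair on a toric bundle over a quotient of a complex torus:
`K_Y + Δ` is nef if and only if it is semiample; in the unramified case if and only if it is nef on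
the fibres; if it is nef then `N m (K_Y + Δ)` is generated by its global sections, and so is `a N K_M`
for each complex manifold `M` with a map `f` to `Y` such that `a K_M` is linearly equivalent to
`f^* (b m (K_Y + Δ))`. Here `N` depends only on the fan, `g`, `m` and `d`. -/
theorem result {ι : Type} [Fintype ι] {n : ℕ} (u : ι → Fin n → ℤ) (S : Set (Set ι))
    (hS : IsSmoothFan u S) (g m : ℕ) (hm : 1 ≤ m) (d : ι → ℤ) :
    ∃ N : ℕ, 1 ≤ N ∧
      ∀ (V : Type) [NormedAddCommGroup V] [NormedSpace ℂ V] [FiniteDimensional ℂ V]
        (Γ : Subgroup (V ≃ᵃ[ℂ] V)) (ρ : V → ℂ) (c : ι → LineBundle Γ) (Hc : ι → V → V → ℂ)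
        (F : V → MvPolynomial ι ℂ) (L : LineBundle Γ) (H : V → V → ℂ),
        IsPair u S g Γ ρ c Hc m d F L H →
        (IsNef u S Hc (fun i => d i - m) H ↔ IsSemiample u S c (fun i => d i - m) L) ∧
        ((∀ v, ¬ OnMirror Γ v) →
          (IsNef u S Hc (fun i => d i - m) H ↔ IsFibreNef u S fun i => d i - m)) ∧
        (IsNef u S Hc (fun i => d i - m) H →
          (IsGG u S c (fun i => N * (d i - m)) fun γ v => L.e γ v ^ N) ∧
          ∀ (E I K : Type) [NormedAddCommGroup E] [NormedSpace ℂ E] (M : Atlas E I K) (κ : LB M),
            IsCanonical κ → ∀ (f : LiftedMap M u S c) (a b : ℕ),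
              (IsPullback f (κ ^ a) (fun i => b * (d i - m)) fun γ v => L.e γ v ^ b) →
                GG (κ ^ (a * N))) := by
  obtain ⟨N, hN, h⟩ := effective hS hm d g
  refine ⟨N, hN, fun V _ _ _ Γ ρ c Hc F L H hP => ?_⟩
  obtain ⟨v₀, hlc⟩ := hP.lc
  have h1 : IsNef u S Hc (fun i => d i - m) H →
      IsGG u S c (fun i => N * (d i - m)) fun γ v => L.e γ v ^ N :=
    h ⟨V, hP.dim, Γ, hP.torus, c, Hc, hP.chern, ρ, hP.ram, F, L, hP.log, H, hP.chernL, v₀, hlc⟩
  refine ⟨⟨fun hn => ⟨N, hN, h1 hn⟩, fun hs => nef_of_semiample hP.torus hP.chern hP.chernL hs⟩,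
    fun hmir => ⟨fun hn σ hσ => ?_, fun hn => nef_of_fibreNef hP.torus hmir hS hP.chern hm hP.ram
      hP.log hP.chernL hlc hn⟩,
    fun hn => ⟨h1 hn, fun E I K _ _ M κ _ f a b hA => ?_⟩⟩
  · obtain ⟨K, hK, β, h2, h3, -⟩ := hn σ hσ
    exact ⟨K, hK, β, h2, h3⟩
  · have h2 := gg_pullback hS f (d := fun i => d i - m) hA (h1 hn)
    rwa [← pow_mul] at h2

end Pool.Agent.Results.MP_97d78d_ag.ToricBundlesTorusQuotients
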