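import Pool.Agent.Run7.h72.Final

/-!
# Abundance for the images of the product of a variety of general type and a curve

Let `X` be a smooth projective variety over `ℂ` of dimension `n` and `C` a smooth projective curve of
any genus. Let `X × C ⇢ W` be a dominant rational map of finite degree to a variety `W`. It need not
be related to the product structure, and it need not be the quotient by a group. Let `d` be the number
of different points of `X` below a general fibre of `X × C ⇢ W`, i.e. the degree over `W` of the image
of `X × C` in `W × X`; it is at most the degree of `X × C ⇢ W`, which may be arbitrarily large.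

Suppose that `N K_X - M H` is effective, where `H` is a linear system which defines a birational map
and `M > 2 N (d - 1)`. (More generally one can use linear systems `H i` on `X` which separate the points
of `X` below a general fibre one after the other, and which together define a generically finite map:
then `d` is replaced by the degrees `d i` of the steps, `N K_X - ∑ M i H i` is effective and
`M i > 2 N (d i - 1)`.)

**Theorem.** One of the following holds: `W` is uniruled; `κ(W) = ν(W) = n = dim W - 1`; `W` is of general
type.

So if `K_W` is nef then `κ(W) = ν(W)`, and `K_W` is semiample by Kawamata's theorem (this last step is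
not part of the Lean proof). The three cases occur. There is no condition on `C`, on the irregularity
of `X` or on the canonical forms of `X`, and `p_g(X) = 0` is possible. The bound for `M` is optimal: let
`X` be a hyperelliptic curve of genus three with a map of degree two to an elliptic curve `X'`, so
`K_X = 2 H`, and let `C` and `W = X' × C` be elliptic. Then `d = 2`, `M = 2 N (d - 1)` and `κ(W) = 0`.

Proof. Let `T` be the function field of the image of `X × C` in `W × X`. For a differential `φ` on `C`
and an `N`-canonical form `ψ` on `X` the product of `ψ` and the `N`-th power of the trace of `φ` on `T`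
is a regular `N`-canonical form of `T`. If two of the traces have a ratio which is not constant on the
images of the curves `{x} × C` then the norm principle (if `t` generates the last step of the tower
`ℂ(W) ⊂ ... ⊂ T` then the norm of a form `ω`, multiplied by a power of the norm of the derivative of the
minimal polynomial of `t`, is regular if all `t ^ j ω` are, `j ≤ 2 N (d - 1)`) shows that `W` is of general
type. Otherwise the images `R` of the curves `{x} × C` in `W` have genus at most one, and if all traces
are zero they are rational. The points of `X` over the points of `R` give a correspondence `Ξ` of degree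
at most `d` over `R` with a map to `X`. If the map is not constant then the forms of `X` give nonzero
regular `N`-fold differentials on the curve `Ξ` over the algebraic closure `Λ` of `ℂ(X)`, by contraction
with vector fields of `Λ`, with a nonconstant ratio, and then also on `R`, a contradiction. So `W` is
fibred in curves of genus at most one, `ν(W) ≤ n` by easy addition for numerical dimensions, and if there
is a nonzero trace then the norm principle gives `κ(W) ≥ n`.

The results on the traces for the product with a curve and on easy addition are the ones of the
starting tree (`Pool.Agent.N145.SX`, `Pool.Agent.Y174` and the parts used there).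
-/

set_option autoImplicit false
set_option linter.overlappingInstances false
set_option maxHeartbeats 4000000
set_option synthInstance.maxHeartbeats 400000

open FF Module IntermediateField Pool.Agent Pool.Agent.W602.GT Run7.h72
open Pool.Agent.W619.PQ (IsUniruled)
open Pool.Agent.W619.TW (NumLe)

namespace Pool.Agent.Results.MP_97d78d_ag.TrichotomyTimesCurve

/-- **Abundance.** Let `K` be the function field of `X × C`, i.e. the compositum of the function fields
`E` of the variety `X` of dimension `n` and `C` of the curve, of transcendence degree `n + 1`. Let
`L ⊆ K` be the function field of a variety `W` such that the extension is finite. Let `x i` (`i < c`) be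
families of rational functions on `X`, each containing `1`, with `L(x 0, …, x (c - 1)) = L(E)`, let
`L_i = L(x 0, …, x (i - 1))` (this is `Lv L x i`), and let `n` of these functions be algebraically
independent. Suppose that there are `N > 0`, `M i` and a nonzero `N`-canonical form `ψ` on `X` such that
all products of `ψ` with `∏ (x i (f i)) ^ M i` are regular, and `M i > 2 N ([L_{i + 1} : L_i] - 1)`. Then
`W` is uniruled, or `κ(W) = ν(W) = n`, or `W` is of general type. -/
theorem result (K : Type) [Field K] [Algebra ℂ K] [Algebra.EssFiniteType ℂ K] (n : ℕ)
    (E C : IntermediateField ℂ K) [Algebra.EssFiniteType ℂ E] [IsFF ℂ C] (hEC : E ⊔ C = ⊤)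
    (hE : Algebra.trdeg ℂ E = n) (hK : Algebra.trdeg ℂ K = (n + 1 : ℕ)) (L : Type) [Field L]
    [Algebra ℂ L] [Algebra L K] [IsScalarTower ℂ L K] [FiniteDimensional L K] {c : ℕ}
    {m : Fin c → ℕ} (x : ∀ i, Fin (m i + 1) → E) (hx : ∀ i, x i 0 = 1)
    (hgen : Lv L (fun i b => (x i b : K)) c = IntermediateField.adjoin L (E : Set K)) {N : ℕ}
    (hN : 0 < N) (M : Fin c → ℕ)
    (hM : ∀ i : Fin c, 2 * N * (finrank L (Lv L (fun i b => (x i b : K)) (i + 1)) -
      finrank L (Lv L (fun i b => (x i b : K)) i)) <
      M i * finrank L (Lv L (fun i b => (x i b : K)) i))
    {ψ : (Fin n → Derivation ℂ E E) → E} (hψ0 : ∃ D, ψ D ≠ 0)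
    (hψ : ∀ f : ∀ i, Fin (m i + 1),
      LogSec ℂ E n N (fun _ => False) fun D => (∏ i, x i (f i) ^ M i) * ψ D)
    (s : Fin n → Σ i, Fin (m i + 1))
    (hs : AlgebraicIndependent ℂ fun l => x (s l).1 (s l).2) :
    IsUniruled ℂ L (n + 1) ∨
    (KodGe ℂ L (n + 1) (fun _ => False) n ∧ NumLe ℂ L (n + 1) (fun _ => False) n) ∨
    GeneralType ℂ L (n + 1) := by
  have hL : Algebra.trdeg ℂ L = (n + 1 : ℕ) := Pool.Agent.Y184.NT.trdeg_below (K := K) hK
  rcases tri hEC hE hK x hx hgen hN M (fun i => by
    have h1 := hM i
    have e1 : 2 * N * (finrank L (Lv L (fun i b => (x i b : K)) (i + 1)) -
      finrank L (Lv L (fun i b => (x i b : K)) i)) =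
      2 * (finrank L (Lv L (fun i b => (x i b : K)) (i + 1)) -
      finrank L (Lv L (fun i b => (x i b : K)) i)) * N := by ring
    rwa [e1] at h1) hψ0 hψ s hs with h1 | ⟨-, h1, ⟨h2, -⟩ | h2⟩
  · exact Or.inr (Or.inr ((Pool.Agent.N145.SX.kodGe_iff hL).1 h1))
  · exact Or.inl h2
  · exact Or.inr (Or.inl ⟨h2, h1⟩)

end Pool.Agent.Results.MP_97d78d_ag.TrichotomyTimesCurve
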